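import Pool.Agent.Run7.h784.TG.Stm
import Pool.Agent.Run7.h875.TS.Cnt
import Pool.Agent.N704.PJ.Loc1
import Pool.Agent.N427.PJ.E1
import Pool.Agent.N787.PJ.Ext
import Pool.Agent.N787.PJ.Cpl
import Pool.Agent.N227.PJ.Par
import Pool.Agent.N769.PJ.Int
import Pool.Agent.N134.PJ.Irk

/-!
# Project TG, piece CONC: from the Selmer conditions to `SelZero` (helper81)
-/

set_option autoImplicit false
set_option linter.all false

open Polynomial IsDedekindDomain
open scoped Classical

namespace Run7.h81.TG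

open Pool.Agent.N874.PP (Ov Ev Sq1)
open Pool.Agent.N352.PJ Run7.h784.TG Run7.h875.TS

theorem loc1' : S_LOC1 :=
  Pool.Agent.N704.PJ.loc1 Pool.Agent.N769.PJ.int (Pool.Agent.N227.PJ.par Pool.Agent.N769.PJ.int)
    Pool.Agent.N427.PJ.e1 Pool.Agent.N787.PJ.ext Pool.Agent.N787.PJ.cpl

theorem conc (hLOCW : P_LOCW) : P_CONC := by
  intro k K L O _ _ _ _ _ _ _ _ _ _ _ _ _ _ _ _ g N r f θ hFm hc D hDm hDs hDd hsq
  have hF := hFm.fam
  have hm := hc.mon
  have hd := hc.deg
  have hD0 : D ≠ 0 := hDm.ne_zero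
  intro h hcop hnorm hloc
  set F' : K[X] := (f.scaleRoots D).map (algebraMap k[X] K) with hF'
  haveI hfact' : Fact (Irreducible F') :=
    ⟨(Pool.Agent.N134.PJ.irk g k K f N r D hF.ht hFm.gr hF.inf hD0).2.1⟩
  set Θ : L := algebraMap k[X] L D * θ with hΘ
  have hroot : aeval Θ F' = 0 := by
    rw [hF', aeval_map_algebraMap]
    have := scaleRoots_eval₂_mul (p := f) (algebraMap k[X] L) θ D
    rw [hc.root, mul_zero] at this
    rw [aeval_def]
    exact this
  have hmF' : F'.Monic := ((monic_scaleRoots_iff D).2 hm).map _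
  let φ : AdjoinRoot F' →ₐ[K] L := AdjoinRoot.liftAlgHom F' (Algebra.ofId K _) Θ hroot
  have hφmk : ∀ p : K[X], φ (AdjoinRoot.mk F' p) = aeval Θ p := by
    intro p
    have h1 := AdjoinRoot.liftAlgHom_mk F' (Algebra.ofId K L) Θ hroot p
    rw [Algebra.toRingHom_ofId, ← Polynomial.aeval_def] at h1
    exact h1
  have hφinj : Function.Injective φ := φ.toRingHom.injective
  haveI : FiniteDimensional K (AdjoinRoot F') := hmF'.finite_adjoinRoot
  haveI : FiniteDimensional K L := by
    apply FiniteDimensional.of_finrank_pos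
    rw [hc.rank]; omega
  have hrk : Module.finrank K (AdjoinRoot F') = Module.finrank K L := by
    rw [hc.rank, (AdjoinRoot.powerBasis hmF'.ne_zero).finrank, AdjoinRoot.powerBasis_dim, hF',
      ((monic_scaleRoots_iff D).2 hm).natDegree_map, natDegree_scaleRoots, hd]
  have hφsurj : Function.Surjective φ :=
    (LinearMap.injective_iff_surjective_of_finrank_eq_finrank (f := φ.toLinearMap) hrk).1 hφinj
  let e : AdjoinRoot F' ≃ₐ[K] L := AlgEquiv.ofBijective φ ⟨hφinj, hφsurj⟩
  have hemk : ∀ p : K[X], e (AdjoinRoot.mk F' p) = aeval Θ p := hφmk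
  have hne : aeval Θ h ≠ 0 := by
    intro h0
    obtain ⟨u, v, huv⟩ := hcop
    have := congrArg (aeval Θ) huv
    rw [map_add, map_mul, map_mul, hroot, h0, mul_zero, mul_zero, add_zero, map_one] at this
    exact zero_ne_one this
  have hnorm' : IsSquare (Algebra.norm K (aeval Θ h)) := by
    rw [← hemk, Algebra.norm_eq_of_algEquiv]
    exact hnorm
  obtain ⟨y, hy⟩ := hsq (aeval Θ h) ⟨hne, hnorm', (by
      intro P hPm hPi hPS 𝔓 hov
      have hPD : ¬ P ∣ D := fun hPD => hPS ((mem_prD hD0).2 ⟨hPm, hPi, hPD⟩)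
      exact loc1' g k K L O f θ hFm.two hc hF.sq P
        ⟨Ideal.span {P}, (Ideal.span_singleton_prime hPi.ne_zero).2 hPi.prime, by
          rw [Ne, Ideal.span_singleton_eq_bot]; exact hPi.ne_zero⟩ hPi rfl D h hPD hne hnorm'
        (hloc _) 𝔓 hov), (by
      intro P hPS
      obtain ⟨hPm, hPi, hPD⟩ := (mem_prD hD0).1 hPS
      have hPn := hDd P hPi hPD
      have hmul : P * (D / P) = D := EuclideanDomain.mul_div_cancel' hPi.ne_zero hPD
      have hPD' : ¬ P ∣ D / P := by
        intro h1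
        have h2 : P * P ∣ D := by
          rw [← hmul]
          exact mul_dvd_mul_left P h1
        exact hPi.not_isUnit (hDs P h2)
      have h3 := hLOCW k K L O g N r f θ hFm hc P
        ⟨Ideal.span {P}, (Ideal.span_singleton_prime hPi.ne_zero).2 hPi.prime, by
          rw [Ne, Ideal.span_singleton_eq_bot]; exact hPi.ne_zero⟩ hPm hPi hPn rfl (D / P) h hPD'
      rw [hmul] at h3
      rw [hmul]
      exact h3 hne (hloc _))⟩
  obtain ⟨z, rfl⟩ := hφsurj y
  obtain ⟨s, rfl⟩ := AdjoinRoot.mk_surjective z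
  refine ⟨s, ?_⟩
  rw [← AdjoinRoot.mk_eq_zero]
  apply hφinj
  rw [map_zero, hφmk, map_sub, map_pow, sub_eq_zero]
  rw [hφmk] at hy
  rw [pow_two]
  exact hy

end Run7.h81.TG
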