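import Pool.Agent.Run7.h81.TG.E3c

/-!
# Project TG, piece E3: the local image of the ramified twist over a complete field (helper81)
-/

set_option autoImplicit false
set_option linter.all false

open Polynomial
open scoped Classical

namespace Run7.h81.TG

open Pool.Agent.N352.PJ Pool.Agent.N195.PJ.E2 Run7.h784.TG

variable {E : Type} [Field E] {w : Valuation (AlgebraicClosure E) NNReal} {c : NNReal}
variable {g : ℕ} {D t : E} {f : E[X]} {θ : Fin (2 * g + 1) → AlgebraicClosure E}
  {i₀ : Fin (2 * g + 1)}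

/-- the class of the expected value -/
theorem H3.key (h : H3 w c g D f θ i₀ t) (k : Fin (2 * g + 1) → ℕ)
    (hk : ∀ (σ : AlgebraicClosure E ≃ₐ[E] AlgebraicClosure E) (p : Equiv.Perm (Fin (2 * g + 1))),
      (∀ l, σ (θ l) = θ (p l)) → ∀ l, k (p l) = k l)
    (x : E) (hx : Cl w x (FA D t θ i₀ k)) (S : Finset (Fin (2 * g + 1))) (hS : i₀ ∉ S)
    (hS' : ∀ l, l ≠ i₀ → (l ∈ S ↔ Odd (k l + k i₀))) (e : E)
    (he : ac e = ∏ l ∈ S, (ac t - θ l)) :
    Sm x ((-D) ^ (∑ l ∈ Finset.univ.erase i₀, k l) * e) := by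
  obtain ⟨a, ha0, ha⟩ := h.desc (fun l => (k l + k i₀) / 2) (fun σ p hp l => by
    show (k (p l) + k i₀) / 2 = (k l + k i₀) / 2
    rw [hk σ p hp l])
  have h1 : FA D t θ i₀ k = ac ((-D) ^ (∑ l ∈ Finset.univ.erase i₀, k l) * a ^ 2 * e) := by
    have e1 : ac ((-D) ^ (∑ l ∈ Finset.univ.erase i₀, k l) * a ^ 2 * e) =
        (-ac D) ^ (∑ l ∈ Finset.univ.erase i₀, k l) * ac a ^ 2 * ac e := by
      simp only [ac, map_mul, map_pow, map_neg]
    rw [e1, ha, he, ← Finset.prod_pow_eq_pow_sum, ← Finset.prod_pow, ← Finset.prod_mul_distrib]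
    have e2 : ∏ l ∈ S, (ac t - θ l) =
        ∏ l ∈ Finset.univ.erase i₀, (ac t - θ l) ^ (if l ∈ S then 1 else 0) := by
      have hsub : S ⊆ Finset.univ.erase i₀ := fun l hl =>
        Finset.mem_erase.2 ⟨fun h => hS (h ▸ hl), Finset.mem_univ _⟩
      rw [← Finset.prod_subset hsub]
      · apply Finset.prod_congr rfl
        intro l hl
        rw [if_pos hl, pow_one]
      · intro l _ hl
        rw [if_neg hl, pow_zero]
    rw [e2, ← Finset.prod_mul_distrib]
    unfold FA
    rw [← Finset.prod_pow, ← Finset.prod_mul_distrib]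
    apply Finset.prod_congr rfl
    intro l hl
    have hl' : l ≠ i₀ := Finset.ne_of_mem_erase hl
    have e3 : ac D * (θ l - ac t) = (-ac D) * (ac t - θ l) := by ring
    rw [e3, mul_pow, mul_assoc, mul_assoc, ← pow_add, ← pow_mul, ← pow_add]
    congr 2
    by_cases hlS : l ∈ S
    · rw [if_pos hlS]
      obtain ⟨m, hm⟩ := (hS' l hl').1 hlS
      omega
    · rw [if_neg hlS]
      have h2 : Even (k l + k i₀) := by
        rw [← Nat.not_odd_iff_even]
        exact fun h3 => hlS ((hS' l hl').2 h3)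
      obtain ⟨m, hm⟩ := h2
      omega
  rw [h1] at hx
  exact (hx.sm h.cv).trans ⟨a, ha0, by ring⟩

theorem e3 : P_E3 := by
  intro E _ w c hc g D f θ i₀ t u v hg hwD hfm hth hle hdf hu hcop hd A hA hAe e
  have h : H3 w c g D f θ i₀ t := ⟨hc, hg, hwD, hfm, hth, hle, hdf⟩
  -- the class of the value
  have hcl : Cl w (chi u (D * t)) (FA D t θ i₀ (fun l => nearA w D u (θ l))) := by
    set s := UniqueFactorizationMonoid.normalizedFactors u with hs
    have hsprod : s.prod = u := by
      rw [hs, UniqueFactorizationMonoid.prod_normalizedFactors_eq hu.ne_zero]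
      exact hu.normalize_eq_self
    have hsm : ∀ q ∈ s, q.Monic ∧ Irreducible q ∧ q ∣ u := by
      intro q hq
      have h1 := UniqueFactorizationMonoid.irreducible_of_normalized_factor q hq
      refine ⟨?_, h1, UniqueFactorizationMonoid.dvd_of_mem_normalizedFactors hq⟩
      have h2 := UniqueFactorizationMonoid.normalize_normalized_factor q hq
      rw [← h2]
      exact monic_normalize h1.ne_zero
    have hcopd : ∀ q, q ∣ u → IsCoprime q f := fun q hq => hcop.of_isCoprime_of_dvd_left hq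
    set s1 := s.filter (AB3 w D θ) with hs1
    set s2 := s.filter (fun q => ¬ AB3 w D θ q) with hs2
    have hsplit : s1.prod * s2.prod = u := by
      rw [← Multiset.prod_add, hs1, hs2, Multiset.filter_add_not, hsprod]
    obtain ⟨hm1, hSm1⟩ := h.ok_prod v s1 (fun q hq => by
      rw [hs1, Multiset.mem_filter] at hq
      obtain ⟨h1, h2, h3⟩ := hsm q hq.1
      exact ⟨h1, h2, hcopd q h3, h3.trans hd, hq.2⟩)
    have hm2 : s2.prod.Monic := by
      have h1 := monic_multiset_prod_of_monic s2 id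
        (fun q hq => (hsm q (Multiset.mem_of_mem_filter hq)).1)
      rwa [Multiset.map_id] at h1
    have hroots : ∀ x ∈ rt s2.prod, w x ≤ w (ac D) ∧ ∀ l, ¬ w (x - ac D * θ l) < w (ac D) := by
      intro x hx
      rw [mem_rt _ hm2, ← coe_eval₂RingHom, map_multiset_prod, Multiset.prod_eq_zero_iff,
        Multiset.mem_map] at hx
      obtain ⟨q, hq, hqx⟩ := hx
      rw [hs2, Multiset.mem_filter] at hq
      obtain ⟨hq1, hq2⟩ := hq
      have hxq : x ∈ rt q := by
        rw [mem_rt q (hsm q hq1).1]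
        exact hqx
      refine ⟨not_lt.1 fun h1 => hq2 ⟨x, hxq, Or.inl h1⟩, fun l h1 => hq2 ⟨x, hxq, Or.inr ⟨l, h1⟩⟩⟩
    have hd2 : s2.prod ∣ v ^ 2 - f := (Dvd.intro_left _ hsplit).trans hd
    have hSm2 := h.caseC Pool.Agent.N434.PJ.b1 s2.prod v hm2 hd2 hroots
    have hn : ∀ l, nearA w D u (θ l) = nearA w D s1.prod (θ l) := by
      intro l
      rw [← hsplit, nearA_mul (θ l) _ _ hm1 hm2,
        nearA_none s2.prod (θ l) (fun x hx => (hroots x hx).2 l), add_zero]
    have h1 : chi u (D * t) = chi s1.prod (D * t) * chi s2.prod (D * t) := by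
      rw [← chi_mul _ _ hm1 hm2, hsplit]
    rw [h1]
    simp only [hn]
    have h2 := hSm1.mul (Cl.of_sm hSm2 (Cl.one (w := w)))
    rwa [mul_one] at h2
  set k : Fin (2 * g + 1) → ℕ := fun l => nearA w D u (θ l) with hk
  have hinv : ∀ (σ : AlgebraicClosure E ≃ₐ[E] AlgebraicClosure E)
      (p : Equiv.Perm (Fin (2 * g + 1))), (∀ l, σ (θ l) = θ (p l)) → ∀ l, k (p l) = k l :=
    fun σ p hp l => h.near_inv u hp l
  have hsum : ∀ S : Finset (Fin (2 * g + 1)), i₀ ∉ S →
      (∀ l, l ≠ i₀ → (l ∈ S ↔ Odd (k l + k i₀))) →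
      (Odd (∑ l ∈ Finset.univ.erase i₀, k l) ↔ Odd S.card) := by
    intro S hS hS'
    have h1 := Finset.odd_sum_iff_odd_card_odd (s := Finset.univ.erase i₀) (fun l => k l + k i₀)
    have h2 : (Finset.univ.erase i₀).filter (fun l => Odd (k l + k i₀)) = S := by
      ext l
      rw [Finset.mem_filter, Finset.mem_erase]
      constructor
      · rintro ⟨⟨h3, -⟩, h4⟩
        exact (hS' l h3).2 h4
      · intro h3
        have h4 : l ≠ i₀ := fun he => hS (he ▸ h3)
        exact ⟨⟨h4, Finset.mem_univ _⟩, (hS' l h4).1 h3⟩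
    have h3 : (Finset.univ.erase i₀).card = 2 * g := by
      rw [Finset.card_erase_of_mem (Finset.mem_univ _), Finset.card_univ, Fintype.card_fin]
      rfl
    rw [Finset.sum_add_distrib, Finset.sum_const, h3, smul_eq_mul] at h1
    have h4 : ∀ n : ℕ, Odd (n + 2 * g * k i₀) ↔ Odd n := by
      intro n
      have h5 : Even (2 * g * k i₀) := ⟨g * k i₀, by ring⟩
      rw [Nat.odd_add]
      tauto
    rw [h4] at h1
    rw [h1]
    congr! 2
  have hfin : ∀ (S : Finset (Fin (2 * g + 1))), i₀ ∉ S →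
      (∀ l, l ≠ i₀ → (l ∈ S ↔ Odd (k l + k i₀))) → ac e = ∏ l ∈ S, (ac t - θ l) →
      (Odd S.card → IsSquare (chi u (D * t) * (-D * e))) ∧
      (Even S.card → IsSquare (chi u (D * t) * e)) := by
    intro S hS hS' he
    obtain ⟨s, hs, hs'⟩ := h.key k hinv _ hcl S hS hS' e he
    refine ⟨fun hodd => ?_, fun heven => ?_⟩
    · obtain ⟨m, hm⟩ := (hsum S hS hS').2 hodd
      rw [hs', hm]
      exact ⟨(-D) ^ (m + 1) * e * s, by ring⟩
    · have h1 : Even (∑ l ∈ Finset.univ.erase i₀, k l) := by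
        rw [← Nat.not_odd_iff_even, hsum S hS hS', Nat.not_odd_iff_even]
        exact heven
      obtain ⟨m, hm⟩ := h1
      rw [hs', hm]
      exact ⟨(-D) ^ m * e * s, by ring⟩
  constructor
  · intro hi he
    have h1 := hfin Aᶜ (by simpa using hi) (by
      intro l hl
      rw [Finset.mem_compl]
      rcases hA with hA | hA
      · have h2 := hA l
        have h3 := (hA i₀).1 hi
        have h3' : Odd (k i₀) := h3
        rw [Nat.odd_add, h2]
        show ¬ Odd (k l) ↔ _
        constructor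
        · intro h4
          exact ⟨fun h5 => absurd h5 h4, fun h5 => absurd h3' (Nat.not_odd_iff_even.2 h5)⟩
        · intro h4 h5
          exact (Nat.not_odd_iff_even.2 (h4.1 h5)) h3'
      · have h2 := hA l
        have h3 : ¬ Odd (k i₀) := fun h3 => (hA i₀).2 h3 hi
        have h3' : Even (k i₀) := Nat.not_odd_iff_even.1 h3
        rw [Nat.odd_add, h2]
        exact ⟨fun h4 => ⟨fun _ => h3', fun _ => h4⟩, fun h4 => h4.2 h3'⟩) (by
      have e5 : θ i₀ = ac t := hth
      rw [← e5]; exact he)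
    refine h1.1 ?_
    rw [Finset.card_compl, Fintype.card_fin]
    have h2 : A.card ≤ 2 * g + 1 := by
      have := Finset.card_le_univ A
      rwa [Fintype.card_fin] at this
    obtain ⟨m, hm⟩ := hAe
    exact ⟨g - m, by omega⟩
  · intro hi he
    have h1 := hfin A hi (by
      intro l hl
      rcases hA with hA | hA
      · have h2 := hA l
        have h3 : ¬ Odd (k i₀) := fun h3 => hi ((hA i₀).2 h3)
        have h3' : Even (k i₀) := Nat.not_odd_iff_even.1 h3
        rw [Nat.odd_add, h2]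
        exact ⟨fun h4 => ⟨fun _ => h3', fun _ => h4⟩, fun h4 => h4.2 h3'⟩
      · have h2 := hA l
        have h3' : Odd (k i₀) := (hA i₀).1 hi
        have h2' : l ∈ A ↔ ¬ Odd (k l) := by
          rw [← not_iff_not, not_not]; exact h2
        rw [Nat.odd_add, h2']
        constructor
        · intro h4
          exact ⟨fun h5 => absurd h5 h4, fun h5 => absurd h3' (Nat.not_odd_iff_even.2 h5)⟩
        · intro h4 h5
          exact (Nat.not_odd_iff_even.2 (h4.1 h5)) h3') (by
      have e5 : θ i₀ = ac t := hth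
      rw [← e5]; exact he)
    exact h1.2 hAe

end Run7.h81.TG
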