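import Pool.Agent.Run7.h784.TG.Stm
import Pool.Agent.N195.PJ.E2
import Pool.Agent.N434.PJ.B1

/-!
# Project TG, piece E3, part 1: square classes seen in the algebraic closure (helper81)
-/

set_option autoImplicit false
set_option linter.all false

open Polynomial
open scoped Classical

namespace Run7.h81.TG

open Pool.Agent.N352.PJ Pool.Agent.N195.PJ.E2

variable {E : Type} [Field E] {w : Valuation (AlgebraicClosure E) NNReal} {c : NNReal}

/-- `a` is close to `β` times a square of `E` -/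
def Cl (w : Valuation (AlgebraicClosure E) NNReal) (a : E) (β : AlgebraicClosure E) : Prop :=
  ∃ s : E, s ≠ 0 ∧ w (ac a - β * ac s ^ 2) < w (β * ac s ^ 2)

theorem ac_ne {x : E} (hx : x ≠ 0) : ac x ≠ 0 := by
  rw [ac, Ne, map_eq_zero_iff _ (algebraMap E (AlgebraicClosure E)).injective]; exact hx

theorem mul_close {Ω : Type} [Field Ω] (w : Valuation Ω NNReal) {x x' y y' : Ω}
    (h : w (x - x') < w x') (h' : w (y - y') < w y') : w (x * y - x' * y') < w (x' * y') := by
  have h3 : w y = w y' := by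
    have : y = (y - y') + y' := by ring
    rw [this]
    exact Valuation.map_add_eq_of_lt_right w h'
  have e1 : x * y - x' * y' = (x - x') * y + x' * (y - y') := by ring
  rw [e1]
  refine Valuation.map_add_lt w ?_ ?_
  · rw [map_mul, map_mul, h3]
    exact mul_lt_mul_of_pos_right h (lt_of_le_of_lt zero_le h')
  · rw [map_mul, map_mul]
    exact mul_lt_mul_of_pos_left h' (lt_of_le_of_lt zero_le h)

theorem Cl.of_close {a : E} {β : AlgebraicClosure E} (h : w (ac a - β) < w β) : Cl w a β :=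
  ⟨1, one_ne_zero, by simpa [ac] using h⟩

theorem Cl.one : Cl w (1 : E) 1 := Cl.of_close (by simp [ac])

theorem Cl.mul {a a' : E} {β β' : AlgebraicClosure E} (h : Cl w a β) (h' : Cl w a' β') :
    Cl w (a * a') (β * β') := by
  obtain ⟨s, hs, h1⟩ := h
  obtain ⟨s', hs', h2⟩ := h'
  refine ⟨s * s', mul_ne_zero hs hs', ?_⟩
  have h3 := mul_close w h1 h2
  have e1 : ac (a * a') = ac a * ac a' := by simp [ac]
  have e2 : β * β' * ac (s * s') ^ 2 = (β * ac s ^ 2) * (β' * ac s' ^ 2) := by
    simp only [ac, map_mul]; ring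
  rw [e1, e2]
  exact h3

theorem Cl.sm (hc : CV E w c) {a b : E} (h : Cl w a (ac b)) : Sm a b := by
  obtain ⟨s, hs, h1⟩ := h
  refine Sm.sq_right hs (Sm.of_close hc ?_)
  have e1 : ac (b * s ^ 2) = ac b * ac s ^ 2 := by simp [ac]
  rw [e1]
  exact h1

theorem Cl.of_sm {a a' : E} {β : AlgebraicClosure E} (h : Sm a a') (h' : Cl w a' β) :
    Cl w a β := by
  obtain ⟨t, ht, rfl⟩ := h
  obtain ⟨s, hs, h1⟩ := h'
  refine ⟨s * t, mul_ne_zero hs ht, ?_⟩
  have e1 : ac (a' * t ^ 2) - β * ac (s * t) ^ 2 = (ac a' - β * ac s ^ 2) * ac t ^ 2 := by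
    simp only [ac, map_mul, map_pow]; ring
  have e2 : β * ac (s * t) ^ 2 = β * ac s ^ 2 * ac t ^ 2 := by
    simp only [ac, map_mul]; ring
  rw [e1, e2, map_mul, map_mul]
  have h2 : 0 < w (ac t ^ 2) := by
    rw [zero_lt_iff, Ne, map_eq_zero]
    exact pow_ne_zero _ (ac_ne ht)
  exact mul_lt_mul_of_pos_right h1 h2

theorem Cl.ne_zero {a : E} {β : AlgebraicClosure E} (h : Cl w a β) : a ≠ 0 := by
  rintro rfl
  obtain ⟨s, hs, h1⟩ := h
  have e : w (ac (0 : E) - β * ac s ^ 2) = w (β * ac s ^ 2) := by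
    rw [ac, map_zero, zero_sub, Valuation.map_neg]
  rw [e] at h1
  exact lt_irrefl _ h1

/-- `∏ (x - β)` over the roots of `q` -/
noncomputable def chiA (q : E[X]) (β : AlgebraicClosure E) : AlgebraicClosure E :=
  ((rt q).map (fun x => x - β)).prod

theorem ac_chi' (q : E[X]) (hq : q.Monic) (a : E) : ac (chi q a) = chiA q (ac a) := ac_chi q hq a

/-- descent -/
theorem descent (x : AlgebraicClosure E) (hs : IsSeparable E x)
    (hx : ∀ σ : AlgebraicClosure E ≃ₐ[E] AlgebraicClosure E, σ x = x) : ∃ a : E, ac a = x := by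
  by_contra hcon
  have h1 : x ∉ (⊥ : Subalgebra E (AlgebraicClosure E)) := by
    intro h
    obtain ⟨a, ha⟩ := Algebra.mem_bot.1 h
    exact hcon ⟨a, ha⟩
  rw [notMem_iff_exists_ne_and_isConjRoot hs (IsAlgClosed.splits _)] at h1
  obtain ⟨y, hxy, hy⟩ := h1
  obtain ⟨σ, hσ⟩ := isConjRoot_iff_exists_algEquiv.1 hy.symm
  exact hxy (by rw [← hσ, hx σ])

theorem isSep_prod {ι : Type} (S : Finset ι) (f : ι → AlgebraicClosure E)
    (h : ∀ i ∈ S, IsSeparable E (f i)) : IsSeparable E (∏ i ∈ S, f i) := by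
  have h1 : ∏ i ∈ S, f i ∈ separableClosure E (AlgebraicClosure E) :=
    prod_mem fun i hi => mem_separableClosure_iff.2 (h i hi)
  exact mem_separableClosure_iff.1 h1

theorem isSep_pow (x : AlgebraicClosure E) (h : IsSeparable E x) (n : ℕ) :
    IsSeparable E (x ^ n) := by
  have h1 : x ^ n ∈ separableClosure E (AlgebraicClosure E) :=
    pow_mem (mem_separableClosure_iff.2 h) n
  exact mem_separableClosure_iff.1 h1

/-- the roots are permuted -/
theorem rt_map (u : E[X]) (σ : AlgebraicClosure E ≃ₐ[E] AlgebraicClosure E) :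
    (rt u).map σ = rt u := by
  have h1 : (u.map (algebraMap E (AlgebraicClosure E))).map (σ : AlgebraicClosure E →+* AlgebraicClosure E) =
      u.map (algebraMap E (AlgebraicClosure E)) := by
    rw [Polynomial.map_map]
    congr 1
    ext x
    simp
  have h2 := Splits.roots_map (IsAlgClosed.splits (u.map (algebraMap E (AlgebraicClosure E))))
    (σ : AlgebraicClosure E →+* AlgebraicClosure E)
  rw [h1] at h2
  exact h2.symm

end Run7.h81.TG
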