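import Pool.Agent.Run7.h81.TG.E3a

/-!
# Project TG, piece E3, part 2: irreducible factors away from the reduction (helper81)
-/

set_option autoImplicit false
set_option linter.all false

open Polynomial
open scoped Classical

namespace Run7.h81.TG

open Pool.Agent.N352.PJ Pool.Agent.N195.PJ.E2 Run7.h784.TG

variable {E : Type} [Field E] {w : Valuation (AlgebraicClosure E) NNReal} {c : NNReal}

/-- the hypotheses -/
structure H3 (w : Valuation (AlgebraicClosure E) NNReal) (c : NNReal) (g : ℕ) (D : E) (f : E[X])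
    (θ : Fin (2 * g + 1) → AlgebraicClosure E) (i₀ : Fin (2 * g + 1)) (t : E) : Prop where
  cv : CV E w c
  g1 : 1 ≤ g
  wD : w (ac D) = c
  fm : f.map (algebraMap E (AlgebraicClosure E)) = ∏ i, (X - C (ac D * θ i))
  th : θ i₀ = ac t
  le1 : ∀ i, w (θ i) ≤ 1
  df : ∀ i j, i ≠ j → w (θ i - θ j) = 1

variable {g : ℕ} {D t : E} {f : E[X]} {θ : Fin (2 * g + 1) → AlgebraicClosure E}
  {i₀ : Fin (2 * g + 1)}

theorem H3.D0 (h : H3 w c g D f θ i₀ t) : D ≠ 0 := by
  rintro rfl
  have h1 := h.wD
  have h2 := h.cv.c0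
  rw [ac, map_zero, map_zero] at h1
  rw [← h1] at h2
  exact lt_irrefl _ h2

theorem H3.Dpos (h : H3 w c g D f θ i₀ t) : 0 < w (ac D) := by rw [h.wD]; exact h.cv.c0

theorem H3.wDθ (h : H3 w c g D f θ i₀ t) (i : Fin (2 * g + 1)) : w (ac D * θ i) ≤ w (ac D) := by
  rw [map_mul]
  exact mul_le_of_le_one_right zero_le (h.le1 i)

theorem H3.wsub (h : H3 w c g D f θ i₀ t) (i j : Fin (2 * g + 1)) (hij : i ≠ j) :
    w (ac D * θ i - ac D * θ j) = w (ac D) := by
  rw [← mul_sub, map_mul, h.df i j hij, mul_one]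

/-- near one `θ_l`, far from the others -/
theorem H3.far (h : H3 w c g D f θ i₀ t) (x : AlgebraicClosure E) (l m : Fin (2 * g + 1))
    (hlm : l ≠ m) (hx : w (x - ac D * θ l) < w (ac D)) : w (x - ac D * θ m) = w (ac D) := by
  have h1 : x - ac D * θ m = (x - ac D * θ l) + (ac D * θ l - ac D * θ m) := by ring
  rw [h1, ← h.wsub l m hlm]
  apply Valuation.map_add_eq_of_lt_right
  rw [h.wsub l m hlm]
  exact hx

theorem H3.big (h : H3 w c g D f θ i₀ t) (x : AlgebraicClosure E) (m : Fin (2 * g + 1))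
    (hx : w (ac D) < w x) : w (x - ac D * θ m) = w x := by
  have h1 : x - ac D * θ m = x + (-(ac D * θ m)) := by ring
  rw [h1]
  apply Valuation.map_add_eq_of_lt_left
  rw [Valuation.map_neg]
  exact lt_of_le_of_lt (h.wDθ m) hx

theorem H3.inj (h : H3 w c g D f θ i₀ t) : Function.Injective θ := by
  intro i j hij
  by_contra hne
  have h1 := h.df i j hne
  rw [hij, sub_self, map_zero] at h1
  exact zero_ne_one h1

theorem H3.acDt (h : H3 w c g D f θ i₀ t) : ac (D * t) = ac D * θ i₀ := by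
  rw [h.th, ac, map_mul]

theorem H3.monic (h : H3 w c g D f θ i₀ t) : f.Monic := by
  have h1 : (f.map (algebraMap E (AlgebraicClosure E))).Monic := by
    rw [h.fm]
    exact monic_prod_of_monic _ _ fun i _ => monic_X_sub_C _
  exact monic_of_injective (algebraMap E (AlgebraicClosure E)).injective h1

theorem H3.deg (h : H3 w c g D f θ i₀ t) : f.natDegree = 2 * g + 1 := by
  rw [← natDegree_map (algebraMap E (AlgebraicClosure E)), h.fm,
    natDegree_prod_of_monic _ _ fun i _ => monic_X_sub_C _]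
  simp only [natDegree_X_sub_C, Finset.sum_const, Finset.card_univ, Fintype.card_fin,
    smul_eq_mul, mul_one]

theorem H3.evF (h : H3 w c g D f θ i₀ t) (x : AlgebraicClosure E) :
    eval₂ (algebraMap E (AlgebraicClosure E)) x f = ∏ i, (x - ac D * θ i) := by
  rw [← eval_map, h.fm, eval_prod]
  simp

theorem ac_zero : ac (0 : E) = 0 := by rw [ac, map_zero]

/-- the Galois action on the roots -/
theorem H3.perm (h : H3 w c g D f θ i₀ t) (σ : AlgebraicClosure E ≃ₐ[E] AlgebraicClosure E) :
    ∃ p : Equiv.Perm (Fin (2 * g + 1)), ∀ l, σ (θ l) = θ (p l) := by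
  have hD := ac_ne h.D0
  have h1 : ∀ l, ∃ l', σ (θ l) = θ l' := by
    intro l
    have h2 : eval₂ (algebraMap E (AlgebraicClosure E)) (ac D * θ l) f = 0 := by
      rw [h.evF]
      exact Finset.prod_eq_zero (Finset.mem_univ l) (sub_self _)
    have h3 : eval₂ (algebraMap E (AlgebraicClosure E)) (σ (ac D * θ l)) f = 0 := by
      have h4 := congrArg σ h2
      rw [map_zero] at h4
      rw [← h4]
      have h5 := Polynomial.hom_eval₂ f (algebraMap E (AlgebraicClosure E))
        (σ : AlgebraicClosure E →+* AlgebraicClosure E) (ac D * θ l)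
      have h6 : (σ : AlgebraicClosure E →+* AlgebraicClosure E).comp
          (algebraMap E (AlgebraicClosure E)) = algebraMap E (AlgebraicClosure E) := by
        ext x; simp
      rw [h6] at h5
      exact h5.symm
    rw [h.evF, Finset.prod_eq_zero_iff] at h3
    obtain ⟨l', _, hl'⟩ := h3
    refine ⟨l', ?_⟩
    rw [map_mul, ac, σ.commutes, ← mul_sub, mul_eq_zero] at hl'
    rcases hl' with h4 | h4
    · exact absurd h4 hD
    · exact sub_eq_zero.1 h4
  choose p hp using h1
  have hpi : Function.Injective p := by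
    intro a b hab
    apply h.inj
    apply σ.injective
    rw [hp, hp, hab]
  exact ⟨Equiv.ofBijective p (Finite.injective_iff_bijective.1 hpi), fun l => hp l⟩

theorem H3.fix (h : H3 w c g D f θ i₀ t) {σ : AlgebraicClosure E ≃ₐ[E] AlgebraicClosure E}
    {p : Equiv.Perm (Fin (2 * g + 1))} (hp : ∀ l, σ (θ l) = θ (p l)) : p i₀ = i₀ := by
  apply h.inj
  rw [← hp, h.th]
  exact σ.commutes t

/-- invariance of the number of near roots -/
theorem H3.near_inv (h : H3 w c g D f θ i₀ t) (u : E[X])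
    {σ : AlgebraicClosure E ≃ₐ[E] AlgebraicClosure E}
    {p : Equiv.Perm (Fin (2 * g + 1))} (hp : ∀ l, σ (θ l) = θ (p l)) (l : Fin (2 * g + 1)) :
    nearA w D u (θ (p l)) = nearA w D u (θ l) := by
  have h1 := rt_map u σ
  unfold nearA
  change Multiset.countP _ (rt u) = Multiset.countP _ (rt u)
  conv_lhs => rw [← h1]
  rw [Multiset.countP_map, ← Multiset.countP_eq_card_filter]
  apply Multiset.countP_congr rfl
  intro x _
  have h2 : σ x - ac D * θ (p l) = σ (x - ac D * θ l) := by
    rw [map_sub, map_mul, hp, ac, σ.commutes]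
  rw [h2, h.cv.conj]

/-- separability -/
theorem H3.sep (h : H3 w c g D f θ i₀ t) (l : Fin (2 * g + 1)) : IsSeparable E (θ l) := by
  have hD := ac_ne h.D0
  have h1 : f.Separable := by
    rw [← separable_map (algebraMap E (AlgebraicClosure E)), h.fm]
    rw [separable_prod_X_sub_C_iff]
    intro i j hij
    exact h.inj (mul_left_cancel₀ hD hij)
  have h2 : IsSeparable E (ac D * θ l) := by
    refine h1.of_dvd (minpoly.dvd E _ ?_)
    rw [aeval_def, h.evF]
    exact Finset.prod_eq_zero (Finset.mem_univ l) (sub_self _)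
  have h3 : θ l = ac (D⁻¹) * (ac D * θ l) := by
    rw [← mul_assoc, ac, ac, ← map_mul, inv_mul_cancel₀ h.D0, map_one, one_mul]
  rw [h3]
  exact Field.isSeparable_mul (isSeparable_algebraMap _) h2

/-- the products over invariant exponents are in `E` -/
theorem H3.desc (h : H3 w c g D f θ i₀ t) (m : Fin (2 * g + 1) → ℕ)
    (hm : ∀ (σ : AlgebraicClosure E ≃ₐ[E] AlgebraicClosure E) (p : Equiv.Perm (Fin (2 * g + 1))),
      (∀ l, σ (θ l) = θ (p l)) → ∀ l, m (p l) = m l) :
    ∃ a : E, a ≠ 0 ∧ ac a = ∏ l ∈ Finset.univ.erase i₀, (ac t - θ l) ^ (m l) := by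
  have h0 : ∏ l ∈ Finset.univ.erase i₀, (ac t - θ l) ^ (m l) ≠ 0 := by
    rw [Finset.prod_ne_zero_iff]
    intro l hl
    apply pow_ne_zero
    rw [← h.th, sub_ne_zero]
    exact fun he => (Finset.ne_of_mem_erase hl) (h.inj he).symm
  obtain ⟨a, ha⟩ := descent (∏ l ∈ Finset.univ.erase i₀, (ac t - θ l) ^ (m l))
    (isSep_prod _ _ fun l _ => isSep_pow _ (Field.isSeparable_sub (isSeparable_algebraMap _)
      (h.sep l)) _) (by
    intro σ
    obtain ⟨p, hp⟩ := h.perm σ
    rw [map_prod]
    refine Finset.prod_bij (fun l _ => p l) ?_ ?_ ?_ ?_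
    · intro l hl
      rw [Finset.mem_erase] at hl ⊢
      refine ⟨fun he => hl.1 ?_, Finset.mem_univ _⟩
      rw [← h.fix hp] at he
      exact p.injective he
    · intro l _ l' _ he
      exact p.injective he
    · intro l hl
      rw [Finset.mem_erase] at hl
      refine ⟨p.symm l, ?_, p.apply_symm_apply l⟩
      rw [Finset.mem_erase]
      refine ⟨fun he => hl.1 ?_, Finset.mem_univ _⟩
      rw [← h.fix hp, ← he, p.apply_symm_apply]
    · intro l _
      rw [map_pow, map_sub, hp, ac, σ.commutes, hm σ p hp l])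
  refine ⟨a, ?_, ha⟩
  rintro rfl
  rw [ac, map_zero] at ha
  exact h0 ha.symm

/-- the expected square class -/
noncomputable def FA (D t : E) (θ : Fin (2 * g + 1) → AlgebraicClosure E) (i₀ : Fin (2 * g + 1))
    (k : Fin (2 * g + 1) → ℕ) : AlgebraicClosure E :=
  (∏ l ∈ Finset.univ.erase i₀, (ac D * (θ l - ac t)) ^ (k l)) *
    (∏ m ∈ Finset.univ.erase i₀, (ac t - θ m)) ^ (k i₀)

theorem FA_add (k k' : Fin (2 * g + 1) → ℕ) :
    FA D t θ i₀ (fun l => k l + k' l) = FA D t θ i₀ k * FA D t θ i₀ k' := by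
  simp only [FA, pow_add, Finset.prod_mul_distrib]
  ring

theorem FA_zero : FA D t θ i₀ (fun _ => 0) = 1 := by
  simp [FA]

/-- the product of all values is a square -/
theorem H3.norm (h : H3 w c g D f θ i₀ t) (q v : E[X]) (hq : q.Monic) (hd : q ∣ v ^ 2 - f) :
    ∃ N : E, ∏ l, chiA q (ac D * θ l) = ac N ^ 2 := by
  obtain ⟨N, hN⟩ := norm_ex q v hq
  refine ⟨N, ?_⟩
  rw [hN, ← Multiset.prod_map_pow]
  unfold chiA
  rw [← Multiset.prod_map_prod]
  congr 1
  apply Multiset.map_congr rfl
  intro x hx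
  rw [mem_rt q hq] at hx
  obtain ⟨b, hb⟩ := hd
  have h1 : eval₂ (algebraMap E (AlgebraicClosure E)) x (v ^ 2 - f) = 0 := by
    rw [hb, eval₂_mul, hx, zero_mul]
  rw [eval₂_sub, eval₂_pow, sub_eq_zero] at h1
  rw [h1, h.evF]

theorem H3.chi_ne (h : H3 w c g D f θ i₀ t) (q : E[X]) (hq : q.Monic) (hcop : IsCoprime q f)
    (l : Fin (2 * g + 1)) : chiA q (ac D * θ l) ≠ 0 := by
  intro h0
  unfold chiA at h0
  rw [Multiset.prod_eq_zero_iff, Multiset.mem_map] at h0
  obtain ⟨x, hx, hx0⟩ := h0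
  rw [mem_rt q hq] at hx
  obtain ⟨a, b, hab⟩ := hcop
  have h1 := congrArg (eval₂ (algebraMap E (AlgebraicClosure E)) x) hab
  rw [eval₂_add, eval₂_mul, eval₂_mul, hx, h.evF, Finset.prod_eq_zero (Finset.mem_univ l) hx0,
    mul_zero, mul_zero, add_zero, eval₂_one] at h1
  exact zero_ne_one h1

theorem nearA_all (q : E[X]) (hq : q.Monic) (s : AlgebraicClosure E)
    (hx : ∀ x ∈ rt q, w (x - ac D * s) < w (ac D)) : nearA w D q s = q.natDegree := by
  rw [← card_rt q hq]
  unfold nearA
  exact Multiset.countP_eq_card.2 hx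

theorem nearA_none (q : E[X]) (s : AlgebraicClosure E)
    (hx : ∀ x ∈ rt q, ¬ w (x - ac D * s) < w (ac D)) : nearA w D q s = 0 := by
  unfold nearA
  exact Multiset.countP_eq_zero.2 hx

theorem nearA_mul (s : AlgebraicClosure E) (p q : E[X]) (hp : p.Monic) (hq : q.Monic) :
    nearA w D (p * q) s = nearA w D p s + nearA w D q s := by
  have h := rt_mul p q hp hq
  unfold nearA
  unfold rt at h
  rw [h, Multiset.countP_add]

theorem nearA_one (s : AlgebraicClosure E) : nearA w D (1 : E[X]) s = 0 := by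
  unfold nearA
  simp

theorem prodF_close {ι : Type} (S : Finset ι) (F F' : ι → AlgebraicClosure E)
    (h : ∀ x ∈ S, w (F x - F' x) < w (F' x)) :
    w (∏ x ∈ S, F x - ∏ x ∈ S, F' x) < w (∏ x ∈ S, F' x) := by
  induction S using Finset.induction_on with
  | empty => simp
  | insert a S ha ih =>
    rw [Finset.prod_insert ha, Finset.prod_insert ha]
    exact mul_close w (h a (Finset.mem_insert_self _ _))
      (ih fun x hx => h x (Finset.mem_insert_of_mem hx))

/-- far roots -/
theorem H3.caseA (h : H3 w c g D f θ i₀ t) (q v : E[X]) (hq : q.Monic)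
    (hcop : IsCoprime q f) (hd : q ∣ v ^ 2 - f) (hx : ∀ x ∈ rt q, w (ac D) < w x) :
    Cl w (chi q (D * t)) (FA D t θ i₀ (fun l => nearA w D q (θ l))) := by
  have h0 : ∀ l, nearA w D q (θ l) = 0 := by
    intro l
    apply nearA_none q
    intro x hxm
    rw [h.big x l (hx x hxm)]
    exact not_lt.2 (hx x hxm).le
  simp only [h0]
  rw [FA_zero]
  have h1 : ∀ l, w (chiA q (ac D * θ l) - ac (chi q 0)) < w (ac (chi q 0)) := by
    intro l
    rw [ac_chi' q hq]
    unfold chiA
    apply prod_close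
    intro x hxm
    have h2 : x - ac D * θ l - (x - ac 0) = - (ac D * θ l) := by
      simp only [ac, map_zero]
      ring
    rw [h2, Valuation.map_neg]
    have h3 : x - ac (0 : E) = x := by simp [ac]
    rw [h3]
    exact lt_of_le_of_lt (h.wDθ l) (hx x hxm)
  have hne : chi q (D * t) ≠ 0 := by
    intro h2
    have h3 := h.chi_ne q hq hcop i₀
    rw [← h.acDt, ← ac_chi' q hq, h2, ac, map_zero] at h3
    exact h3 rfl
  have h2 : Sm (chi q (D * t)) (chi q 0) := by
    apply Sm.of_close h.cv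
    have := h1 i₀
    rwa [← h.acDt, ← ac_chi' q hq] at this
  obtain ⟨N, hN⟩ := h.norm q v hq hd
  have hN0 : N ≠ 0 := by
    rintro rfl
    rw [ac_zero, zero_pow two_ne_zero, Finset.prod_eq_zero_iff] at hN
    obtain ⟨l, _, hl⟩ := hN
    exact h.chi_ne q hq hcop l hl
  have hne0 : chi q 0 ≠ 0 := by
    intro h3
    obtain ⟨s, hs, hs'⟩ := h2
    rw [h3, zero_mul] at hs'
    exact hne hs'
  have h4 : Sm (N ^ 2) ((chi q 0) ^ (2 * g + 1)) := by
    apply Sm.of_close h.cv
    have e1 : ac (N ^ 2) = ∏ l, chiA q (ac D * θ l) := by rw [hN, ac, map_pow]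
    have e2 : ac ((chi q 0) ^ (2 * g + 1)) = ∏ l : Fin (2 * g + 1), ac (chi q 0) := by
      rw [Finset.prod_const, Finset.card_univ, Fintype.card_fin, ac, map_pow]
    rw [e1, e2]
    exact prodF_close _ _ _ fun l _ => h1 l
  rw [pow_succ (chi q 0), pow_mul (chi q 0)] at h4
  have h3 : Sm (chi q 0) 1 := by
    have h5 : Sm (N ^ 2) 1 := ⟨N, hN0, by ring⟩
    have h6 : Sm ((chi q 0 ^ 2) ^ g * chi q 0) (chi q 0) := ⟨chi q 0 ^ g, pow_ne_zero _ hne0, by
      ring⟩
    exact (h6.symm.trans h4.symm).trans h5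
  exact Cl.of_sm (h2.trans h3) Cl.one

/-- near roots -/
theorem H3.caseB (h : H3 w c g D f θ i₀ t) (q v : E[X]) (hq : q.Monic) (hirr : Irreducible q)
    (hcop : IsCoprime q f) (hd : q ∣ v ^ 2 - f) (x₀ : AlgebraicClosure E) (hx₀ : x₀ ∈ rt q)
    (l₀ : Fin (2 * g + 1)) (hl₀ : w (x₀ - ac D * θ l₀) < w (ac D)) :
    Cl w (chi q (D * t)) (FA D t θ i₀ (fun l => nearA w D q (θ l))) := by
  by_cases hi : ∃ x ∈ rt q, w (x - ac D * θ i₀) < w (ac D)
  · -- all the roots are near `D t`
    obtain ⟨x₁, hx₁, hw₁⟩ := hi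
    have hall : ∀ x ∈ rt q, w (x - ac D * θ i₀) < w (ac D) := by
      intro x hx
      rw [← h.acDt] at hw₁ ⊢
      rw [← conj_rt h.cv q hq hirr x₁ x hx₁ hx (D * t)]
      exact hw₁
    have hn0 : ∀ l, l ≠ i₀ → nearA w D q (θ l) = 0 := by
      intro l hl
      apply nearA_none q
      intro x hx
      rw [h.far x i₀ l hl.symm (hall x hx)]
      exact lt_irrefl _
    have hni : nearA w D q (θ i₀) = q.natDegree := nearA_all q hq _ hall
    obtain ⟨m₀, hm₀, hm⟩ := h.desc (fun _ => 1) (fun _ _ _ _ => rfl)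
    simp only [pow_one] at hm
    have hFA : FA D t θ i₀ (fun l => nearA w D q (θ l)) = ac (m₀ ^ q.natDegree) := by
      unfold FA
      simp only
      rw [hni, ← hm, Finset.prod_eq_one, one_mul, ac, ac, map_pow]
      intro l hl
      rw [hn0 l (Finset.ne_of_mem_erase hl), pow_zero]
    rw [hFA]
    obtain ⟨N, hN⟩ := h.norm q v hq hd
    rw [← Finset.mul_prod_erase _ _ (Finset.mem_univ i₀)] at hN
    set P := ∏ l ∈ Finset.univ.erase i₀, chiA q (ac D * θ l) with hP
    have hPne : P ≠ 0 := by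
      rw [hP, Finset.prod_ne_zero_iff]
      intro l _
      exact h.chi_ne q hq hcop l
    set b : E := (D ^ (2 * g) * m₀) ^ q.natDegree with hb
    have hb0 : b ≠ 0 := pow_ne_zero _ (mul_ne_zero (pow_ne_zero _ h.D0) hm₀)
    have hacb : ac b = ∏ l ∈ Finset.univ.erase i₀, (ac D * (θ i₀ - θ l)) ^ q.natDegree := by
      rw [Finset.prod_pow, Finset.prod_mul_distrib, Finset.prod_const,
        Finset.card_erase_of_mem (Finset.mem_univ i₀), Finset.card_univ, Fintype.card_fin,
        Nat.add_sub_cancel, h.th, ← hm, hb]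
      simp only [ac, map_mul, map_pow]
    have hclose : w (P - ac b) < w (ac b) := by
      rw [hacb, hP]
      apply prodF_close
      intro l hl
      have hli : i₀ ≠ l := (Finset.ne_of_mem_erase hl).symm
      have h1 : (ac D * (θ i₀ - θ l)) ^ q.natDegree =
          ((rt q).map (fun _ => ac D * θ i₀ - ac D * θ l)).prod := by
        rw [Multiset.map_const', Multiset.prod_replicate, card_rt q hq, mul_sub]
      rw [h1]
      unfold chiA
      apply prod_close
      intro x hxm
      rw [h.wsub i₀ l hli]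
      have h2 : x - ac D * θ l - (ac D * θ i₀ - ac D * θ l) = x - ac D * θ i₀ := by ring
      rw [h2]
      exact hall x hxm
    have hwP : w P = w (ac b) := by
      have : P = (P - ac b) + ac b := by ring
      rw [this]
      exact Valuation.map_add_eq_of_lt_right w hclose
    set χ := chi q (D * t) with hχ
    have hχA : ac χ = chiA q (ac D * θ i₀) := by rw [hχ, ac_chi' q hq, h.acDt]
    have hχ0 : χ ≠ 0 := by
      intro h2
      have h3 := h.chi_ne q hq hcop i₀
      rw [← hχA, h2, ac, map_zero] at h3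
      exact h3 rfl
    have hN0 : N ≠ 0 := by
      rintro rfl
      rw [ac_zero, zero_pow two_ne_zero, ← hχA] at hN
      rcases mul_eq_zero.1 hN with h2 | h2
      · exact (ac_ne hχ0) h2
      · exact hPne h2
    have h1 : Sm (χ * b) (N ^ 2) := by
      apply Sm.of_close h.cv
      have e1 : ac (N ^ 2) = ac χ * P := by rw [hχA, hN, ac, map_pow]
      have e2 : ac (χ * b) - ac χ * P = ac χ * (ac b - P) := by
        simp only [ac, map_mul]; ring
      rw [e1, e2, map_mul, map_mul, hwP]
      refine mul_lt_mul_of_pos_left ?_ ?_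
      · rw [Valuation.map_sub_swap]
        exact hclose
      · rw [zero_lt_iff, Ne, map_eq_zero]
        exact ac_ne hχ0
    have h2 : Sm (χ * b) 1 := h1.trans ⟨N, hN0, by ring⟩
    obtain ⟨s, hs, hs'⟩ := h2
    have h3 : Sm χ b := Sm.of_mul (N := s) hχ0 hb0 (by rw [hs']; ring)
    have h4 : Sm b (m₀ ^ q.natDegree) := by
      refine ⟨(D ^ g) ^ q.natDegree, pow_ne_zero _ (pow_ne_zero _ h.D0), ?_⟩
      rw [hb, mul_pow, ← pow_mul, ← pow_mul, ← pow_mul]
      ring
    refine Cl.of_sm (h3.trans h4) (Cl.of_close ?_)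
    rw [sub_self, map_zero, zero_lt_iff, Ne, map_eq_zero]
    exact ac_ne (pow_ne_zero _ hm₀)
  · -- no root is near `D t`
    push Not at hi
    have hni : nearA w D q (θ i₀) = 0 := nearA_none q _ fun x hx => not_lt.2 (hi x hx)
    have hall : ∀ x ∈ rt q, ∃ l, l ≠ i₀ ∧ w (x - ac D * θ l) < w (ac D) := by
      intro x hx
      have hx' := minpoly.eq_of_irreducible_of_monic hirr ((mem_rt q hq x).1 hx) hq
      have hy' := minpoly.eq_of_irreducible_of_monic hirr ((mem_rt q hq x₀).1 hx₀) hq
      have h1 : IsConjRoot E x x₀ := by rw [isConjRoot_def, ← hx', ← hy']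
      obtain ⟨σ, hσ⟩ := isConjRoot_iff_exists_algEquiv.1 h1
      obtain ⟨p, hp⟩ := h.perm σ
      have h2 : w (x - ac D * θ (p l₀)) < w (ac D) := by
        have h3 : x - ac D * θ (p l₀) = σ (x₀ - ac D * θ l₀) := by
          rw [map_sub, map_mul, hp, ac, σ.commutes, hσ]
        rw [h3, h.cv.conj]
        exact hl₀
      refine ⟨p l₀, ?_, h2⟩
      intro he
      rw [he] at h2
      exact absurd h2 (not_lt.2 (hi x hx))
    have hcount : ∀ (R : Multiset (AlgebraicClosure E)) (P : AlgebraicClosure E → Prop)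
        (y : AlgebraicClosure E),
        (R.map fun x => if P x then y else 1).prod = y ^ R.countP P := by
      intro R P y
      induction R using Multiset.induction_on with
      | empty => simp
      | cons a R ih =>
        rw [Multiset.map_cons, Multiset.prod_cons, ih, Multiset.countP_cons]
        split_ifs <;> simp [pow_succ, mul_comm]
    have hFA : FA D t θ i₀ (fun l => nearA w D q (θ l)) =
        ((rt q).map fun x => ∏ l ∈ Finset.univ.erase i₀,
          if w (x - ac D * θ l) < w (ac D) then ac D * (θ l - ac t) else 1).prod := by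
      unfold FA
      simp only
      rw [hni, pow_zero, mul_one, Multiset.prod_map_prod]
      apply Finset.prod_congr rfl
      intro l _
      exact (hcount (rt q) (fun x => w (x - ac D * θ l) < w (ac D)) _).symm
    rw [hFA]
    apply Cl.of_close
    rw [ac_chi' q hq]
    unfold chiA
    apply prod_close
    intro x hx
    obtain ⟨l, hl, hxl⟩ := hall x hx
    have h1 : (∏ m ∈ Finset.univ.erase i₀,
        if w (x - ac D * θ m) < w (ac D) then ac D * (θ m - ac t) else 1) =
        ac D * (θ l - ac t) := by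
      rw [Finset.prod_eq_single l]
      · rw [if_pos hxl]
      · intro m _ hml
        rw [if_neg]
        rw [h.far x l m hml.symm hxl]
        exact lt_irrefl _
      · intro hn
        exact absurd (Finset.mem_erase.2 ⟨hl, Finset.mem_univ _⟩) hn
    rw [h1, h.acDt, ← h.th, mul_sub, h.wsub l i₀ hl]
    have h2 : x - ac D * θ i₀ - (ac D * θ l - ac D * θ i₀) = x - ac D * θ l := by ring
    rw [h2]
    exact hxl

/-- irreducible factors of the first kinds -/
def AB3 (w : Valuation (AlgebraicClosure E) NNReal) (D : E)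
    (θ : Fin (2 * g + 1) → AlgebraicClosure E) (q : E[X]) : Prop :=
  ∃ x ∈ rt q, w (ac D) < w x ∨ ∃ l, w (x - ac D * θ l) < w (ac D)

theorem H3.ok (h : H3 w c g D f θ i₀ t) (q v : E[X]) (hq : q.Monic) (hirr : Irreducible q)
    (hcop : IsCoprime q f) (hd : q ∣ v ^ 2 - f) (hAB : AB3 w D θ q) :
    Cl w (chi q (D * t)) (FA D t θ i₀ (fun l => nearA w D q (θ l))) := by
  obtain ⟨x, hx, hA | ⟨l, hl⟩⟩ := hAB
  · apply h.caseA q v hq hcop hd
    intro y hy
    rw [← conj_rt0 h.cv q hq hirr x y hx hy]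
    exact hA
  · exact h.caseB q v hq hirr hcop hd x hx l hl

/-- the product over factors of the first kinds -/
theorem H3.ok_prod (h : H3 w c g D f θ i₀ t) (v : E[X]) (s : Multiset E[X])
    (hs : ∀ q ∈ s, q.Monic ∧ Irreducible q ∧ IsCoprime q f ∧ q ∣ v ^ 2 - f ∧
      AB3 w D θ q) :
    s.prod.Monic ∧ Cl w (chi s.prod (D * t)) (FA D t θ i₀ (fun l => nearA w D s.prod (θ l))) := by
  induction s using Multiset.induction_on with
  | empty =>
    rw [Multiset.prod_zero]
    refine ⟨monic_one, ?_⟩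
    simp only [nearA_one, chi_one, FA_zero]
    exact Cl.one
  | cons a s ih =>
    obtain ⟨h1, h2, h3, h4, h5⟩ := hs a (Multiset.mem_cons_self _ _)
    obtain ⟨h6, h7⟩ := ih fun q hq => hs q (Multiset.mem_cons_of_mem hq)
    rw [Multiset.prod_cons]
    refine ⟨h1.mul h6, ?_⟩
    rw [chi_mul _ _ h1 h6]
    have h8 : (fun l => nearA w D (a * s.prod) (θ l)) =
        fun l => nearA w D a (θ l) + nearA w D s.prod (θ l) := by
      funext l
      exact nearA_mul (θ l) a s.prod h1 h6
    rw [h8, FA_add]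
    exact (h.ok a v h1 h2 h3 h4 h5).mul h7

end Run7.h81.TG
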